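import Mathlib

/-!
# Dirac's theorem: a graph without chordless cycles of length at least four has a simplicial vertex

`N` is a symmetric and irreflexive relation. A hole of length `k` is a periodic sequence of
vertices with period `k ≥ 4` in which the vertices at distance 1 are adjacent and all other ones
are distinct and not adjacent.
-/

set_option autoImplicit false
open Finset

namespace Pool.Agent.Helper59.Tur

set_option linter.unusedSectionVars false

variable {V : Type} [DecidableEq V]

/-- a chordless cycle of length `k ≥ 4` in `S`, as a periodic sequence -/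
structure Hole (N : V → V → Prop) (S : Finset V) (k : ℤ) (g : ℤ → V) : Prop where
  four : 4 ≤ k
  mem : ∀ i, g i ∈ S
  per : ∀ i, g (i + k) = g i
  adj : ∀ i, N (g i) (g (i + 1))
  non : ∀ i d, 2 ≤ d → d ≤ k - 2 → g i ≠ g (i + d) ∧ ¬ N (g i) (g (i + d))

/-- a walk from `s` to `t` with `m` steps and interior vertices in `C` -/
structure Chain (N : V → V → Prop) (C : Finset V) (m : ℕ) (f : ℕ → V) (s t : V) : Prop where
  start : f 0 = s
  stop : f m = t
  adj : ∀ i < m, N (f i) (f (i + 1))
  mem : ∀ i, 0 < i → i < m → f i ∈ C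

variable {N : V → V → Prop} {C : Finset V}

theorem Chain.reverse (hs : ∀ x y, N x y → N y x) {m : ℕ} {f : ℕ → V} {s t : V}
    (h : Chain N C m f s t) : Chain N C m (fun i => f (m - i)) t s where
  start := by simpa using h.stop
  stop := by simpa using h.start
  adj := by
    intro i hi
    have h1 := h.adj (m - (i + 1)) (by omega)
    have h2 : m - (i + 1) + 1 = m - i := by omega
    rw [h2] at h1
    exact hs _ _ h1
  mem := by
    intro i h1 h2
    exact h.mem _ (by omega) (by omega)

theorem Chain.cons {m : ℕ} {f : ℕ → V} {s c t : V} (h : Chain N C m f c t) (hc : c ∈ C)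
    (hsc : N s c) : Chain N C (m + 1) (fun i => if i = 0 then s else f (i - 1)) s t where
  start := by simp
  stop := by simpa using h.stop
  adj := by
    intro i hi
    rcases Nat.eq_zero_or_pos i with rfl | h0
    · simp only [if_true]
      rw [if_neg (by norm_num)]
      simpa [h.start] using hsc
    · rw [if_neg (by omega), if_neg (by omega)]
      have h1 := h.adj (i - 1) (by omega)
      have h2 : i - 1 + 1 = i + 1 - 1 := by omega
      rw [h2] at h1
      exact h1
  mem := by
    intro i h1 h2
    rw [if_neg (by omega)]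
    rcases Nat.eq_zero_or_pos (i - 1) with h3 | h3
    · rw [h3, h.start]
      exact hc
    · exact h.mem _ h3 (by omega)

theorem Chain.mono {C' : Finset V} (hC : C ⊆ C') {m : ℕ} {f : ℕ → V} {s t : V}
    (h : Chain N C m f s t) : Chain N C' m f s t :=
  ⟨h.start, h.stop, h.adj, fun i h1 h2 => hC (h.mem i h1 h2)⟩

theorem Chain.shortcut {m i j : ℕ} {f : ℕ → V} {s t : V} (h : Chain N C m f s t)
    (hij : i + 2 ≤ j) (hj : j ≤ m) (hN : N (f i) (f j)) :
    Chain N C (m - (j - i - 1)) (fun l => if l ≤ i then f l else f (l + (j - i - 1))) s t where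
  start := by simpa using h.start
  stop := by
    rw [if_neg (by omega)]
    have h1 : m - (j - i - 1) + (j - i - 1) = m := by omega
    rw [h1]
    exact h.stop
  adj := by
    intro l hl
    rcases Nat.lt_trichotomy l i with h1 | h1 | h1
    · rw [if_pos (by omega), if_pos (by omega)]
      exact h.adj l (by omega)
    · subst h1
      rw [if_pos le_rfl, if_neg (by omega)]
      have h2 : l + 1 + (j - l - 1) = j := by omega
      rw [h2]
      exact hN
    · rw [if_neg (by omega), if_neg (by omega)]
      have h2 := h.adj (l + (j - i - 1)) (by omega)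
      have h3 : l + (j - i - 1) + 1 = l + 1 + (j - i - 1) := by omega
      rw [h3] at h2
      exact h2
  mem := by
    intro l h1 h2
    split_ifs with h3
    · exact h.mem l h1 (by omega)
    · exact h.mem _ (by omega) (by omega)

/-- a chordless path between two non-adjacent vertices outside `C` -/
theorem Chain.chordless {s t : V} (hst : s ≠ t) (hn : ¬ N s t) (ht : t ∉ C)
    (h : ∃ m f, Chain N C m f s t) : ∃ m f, 2 ≤ m ∧ Chain N C m f s t ∧
      ∀ i j, i + 2 ≤ j → j ≤ m → f i ≠ f j ∧ ¬ N (f i) (f j) := by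
  classical
  obtain ⟨f, hf⟩ := Nat.find_spec h
  set m := Nat.find h with hm
  have hmin : ∀ l < m, ¬ ∃ f, Chain N C l f s t := fun l hl => Nat.find_min h hl
  have hm2 : 2 ≤ m := by
    by_contra hcon
    have h1 : m = 0 ∨ m = 1 := by omega
    rcases h1 with h1 | h1
    · rw [h1] at hf
      exact hst (hf.start.symm.trans hf.stop)
    · rw [h1] at hf
      have h2 := hf.adj 0 (by norm_num)
      rw [hf.start] at h2
      have h3 := hf.stop
      norm_num at h2
      rw [h3] at h2
      exact hn h2
  have hno : ∀ i j, i + 2 ≤ j → j ≤ m → ¬ N (f i) (f j) := by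
    intro i j h1 h2 h3
    exact hmin (m - (j - i - 1)) (by omega) ⟨_, hf.shortcut h1 h2 h3⟩
  refine ⟨m, f, hm2, hf, ?_⟩
  intro i j h1 h2
  refine ⟨?_, hno i j h1 h2⟩
  intro heq
  rcases Nat.lt_or_ge j m with h3 | h3
  · have h4 := hf.adj j h3
    rw [← heq] at h4
    exact hno i (j + 1) (by omega) (by omega) h4
  · have h4 : j = m := by omega
    rw [h4, hf.stop] at heq
    rcases Nat.eq_zero_or_pos i with h5 | h5
    · rw [h5, hf.start] at heq
      exact hst heq
    · have h6 := hf.mem i h5 (by omega)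
      rw [heq] at h6
      exact ht h6

/-- closing a chordless path with a vertex which is adjacent to the two ends only -/
theorem hole_of_chain (hsym : ∀ x y, N x y → N y x) {S : Finset V} {m : ℕ} {f : ℕ → V}
    {s t b : V} (hm : 2 ≤ m) (hf : Chain N C m f s t)
    (hno : ∀ i j, i + 2 ≤ j → j ≤ m → f i ≠ f j ∧ ¬ N (f i) (f j))
    (hb : ∀ c ∈ C, b ≠ c ∧ ¬ N b c) (hbs : N b s) (hbt : N b t) (hC : C ⊆ S) (hsS : s ∈ S)
    (htS : t ∈ S) (hbS : b ∈ S) :
    ∃ k g, Hole N S k g := by
  set G : ℕ → V := fun r => if r ≤ m then f r else b with hG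
  have hGf : ∀ r, r ≤ m → G r = f r := fun r hr => by
    rw [hG]
    simp only
    rw [if_pos hr]
  have hGb : ∀ r, ¬ r ≤ m → G r = b := fun r hr => by
    rw [hG]
    simp only
    rw [if_neg hr]
  have hGS : ∀ r, G r ∈ S := by
    intro r
    by_cases hr : r ≤ m
    · rw [hGf r hr]
      rcases Nat.eq_zero_or_pos r with h0 | h0
      · rw [h0, hf.start]
        exact hsS
      · rcases Nat.lt_or_ge r m with h1 | h1
        · exact hC (hf.mem r h0 h1)
        · have : r = m := by omega
          rw [this, hf.stop]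
          exact htS
    · rw [hGb r hr]
      exact hbS
  have hadj : ∀ p, p ≤ m → N (G p) (G (p + 1)) := by
    intro p hp
    rcases Nat.lt_or_ge p m with h1 | h1
    · rw [hGf p hp, hGf (p + 1) (by omega)]
      exact hf.adj p h1
    · have h2 : p = m := by omega
      rw [hGf p hp, hGb (p + 1) (by omega), h2, hf.stop]
      exact hsym _ _ hbt
  have hadj0 : N (G (m + 1)) (G 0) := by
    rw [hGf 0 (by omega), hGb (m + 1) (by omega), hf.start]
    exact hbs
  have hnon : ∀ p q, p + 2 ≤ q → q ≤ m + 1 → q ≤ p + m → G p ≠ G q ∧ ¬ N (G p) (G q) := by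
    intro p q h1 h2 h3
    rcases Nat.lt_or_ge q (m + 1) with h4 | h4
    · rw [hGf p (by omega), hGf q (by omega)]
      exact hno p q h1 (by omega)
    · rw [hGf p (by omega), hGb q (by omega)]
      have h5 := hb _ (hf.mem p (by omega) (by omega))
      exact ⟨h5.1.symm, fun h => h5.2 (hsym _ _ h)⟩
  have hk : (0 : ℤ) < (m : ℤ) + 2 := by positivity
  have hr : ∀ i : ℤ, ∃ r : ℕ, r ≤ m + 1 ∧ i % ((m : ℤ) + 2) = r := by
    intro i
    have h1 := Int.emod_nonneg i hk.ne'
    have h2 := Int.emod_lt_of_pos i hk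
    exact ⟨(i % ((m : ℤ) + 2)).toNat, by omega, by omega⟩
  have hstep : ∀ (i d : ℤ) (r : ℕ), i % ((m : ℤ) + 2) = r → 1 ≤ d → d ≤ (m : ℤ) + 1 →
      ((i + d) % ((m : ℤ) + 2) = r + d ∧ (r : ℤ) + d < (m : ℤ) + 2) ∨
      ((i + d) % ((m : ℤ) + 2) = r + d - ((m : ℤ) + 2) ∧ (m : ℤ) + 2 ≤ (r : ℤ) + d) := by
    intro i d r h1 h2 h3
    have h4 : (i + d) % ((m : ℤ) + 2) = (r + d) % ((m : ℤ) + 2) := by
      rw [← h1, Int.emod_add_emod]
    have h5 := Int.emod_nonneg i hk.ne'
    have h6 := Int.emod_lt_of_pos i hk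
    rw [h1] at h5 h6
    rcases lt_or_ge ((r : ℤ) + d) ((m : ℤ) + 2) with h7 | h7
    · left
      rw [h4]
      exact ⟨Int.emod_eq_of_lt (by omega) h7, h7⟩
    · right
      rw [h4]
      refine ⟨?_, h7⟩
      have h8 : ((r : ℤ) + d) % ((m : ℤ) + 2) = ((r : ℤ) + d - ((m : ℤ) + 2)) % ((m : ℤ) + 2) :=
        (Int.sub_emod_right _ _).symm
      rw [h8]
      exact Int.emod_eq_of_lt (by omega) (by omega)
  refine ⟨(m : ℤ) + 2, fun i => G (i % ((m : ℤ) + 2)).toNat, ?_, ?_, ?_, ?_, ?_⟩
  · omega
  · intro i
    exact hGS _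
  · intro i
    simp
  · intro i
    obtain ⟨r, hr1, hr2⟩ := hr i
    rw [hr2, Int.toNat_natCast]
    rcases hstep i 1 r hr2 le_rfl (by omega) with ⟨h1, h2⟩ | ⟨h1, h2⟩
    · have h3 : (((r : ℤ) + 1)).toNat = r + 1 := by omega
      rw [h1, h3]
      exact hadj r (by omega)
    · have h3 : r = m + 1 := by omega
      have h4 : ((r : ℤ) + 1 - ((m : ℤ) + 2)).toNat = 0 := by omega
      rw [h1, h4, h3]
      exact hadj0
  · intro i d hd1 hd2
    obtain ⟨r, hr1, hr2⟩ := hr i
    rw [hr2, Int.toNat_natCast]
    rcases hstep i d r hr2 (by omega) (by omega) with ⟨h1, h2⟩ | ⟨h1, h2⟩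
    · rw [h1]
      exact hnon r _ (by omega) (by omega) (by omega)
    · rw [h1]
      have h3 := hnon ((r : ℤ) + d - ((m : ℤ) + 2)).toNat r (by omega) (by omega) (by omega)
      exact ⟨h3.1.symm, fun h => h3.2 (hsym _ _ h)⟩

/-- any two vertices of `C` are joined by a walk in `C` -/
def Conn (N : V → V → Prop) (C : Finset V) : Prop :=
  ∀ x ∈ C, ∀ y ∈ C, ∃ m f, Chain N C m f x y

theorem conn_singleton (v : V) : Conn N {v} := by
  intro x hx y hy
  rw [mem_singleton] at hx hy
  rw [hx, hy]
  exact ⟨0, fun _ => v, rfl, rfl, fun i hi => absurd hi (Nat.not_lt_zero i),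
    fun i _ hi => absurd hi (Nat.not_lt_zero i)⟩

theorem Conn.insert (hsym : ∀ x y, N x y → N y x) (h : Conn N C) {s c : V} (hc : c ∈ C)
    (hsc : N s c) : Conn N (insert s C) := by
  have hsub : C ⊆ Insert.insert s C := subset_insert s C
  have key : ∀ y ∈ C, ∃ m f, Chain N (Insert.insert s C) m f s y := by
    intro y hy
    obtain ⟨m, f, hf⟩ := h c hc y hy
    exact ⟨_, _, (hf.cons hc hsc).mono hsub⟩
  intro x hx y hy
  rw [mem_insert] at hx hy
  rcases hx with rfl | hx
  · rcases hy with rfl | hy
    · exact ⟨0, fun _ => y, rfl, rfl, fun i hi => absurd hi (Nat.not_lt_zero i),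
        fun i _ hi => absurd hi (Nat.not_lt_zero i)⟩
    · exact key y hy
  · rcases hy with rfl | hy
    · obtain ⟨m, f, hf⟩ := key x hx
      exact ⟨_, _, hf.reverse hsym⟩
    · obtain ⟨m, f, hf⟩ := h x hx y hy
      exact ⟨m, f, hf.mono hsub⟩

/-- **Dirac's theorem**: a non-empty graph without holes has a simplicial vertex. -/
theorem exists_simplicial (hsym : ∀ x y, N x y → N y x) :
    ∀ (n : ℕ) (S : Finset V), S.card = n → S.Nonempty → (∀ k g, ¬ Hole N S k g) →
      ∃ x ∈ S, ∀ y ∈ S, ∀ z ∈ S, x ≠ y → x ≠ z → y ≠ z → N x y → N x z → N y z := by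
  classical
  intro n
  induction n using Nat.strong_induction_on with
  | _ n ih =>
    intro S hSn hne hno
    by_cases hcomplete : ∀ y ∈ S, ∀ z ∈ S, y ≠ z → N y z
    · obtain ⟨x, hx⟩ := hne
      exact ⟨x, hx, fun y hy z hz _ _ hyz _ _ => hcomplete y hy z hz hyz⟩
    · push Not at hcomplete
      obtain ⟨v, hv, w, hw, hvw, hnvw⟩ := hcomplete
      -- connected sets which miss some vertex
      set F : Finset (Finset V) := S.powerset.filter fun C => Conn N C ∧ C.Nonempty ∧
        ∃ b ∈ S, b ∉ C ∧ ∀ c ∈ C, ¬ N b c with hF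
      have hFne : F.Nonempty := by
        refine ⟨{v}, ?_⟩
        rw [hF, mem_filter, mem_powerset, singleton_subset_iff]
        refine ⟨hv, conn_singleton v, singleton_nonempty v, w, hw, ?_, ?_⟩
        · rw [mem_singleton]
          exact hvw.symm
        · intro c hc
          rw [mem_singleton] at hc
          rw [hc]
          exact fun h => hnvw (hsym _ _ h)
      obtain ⟨C, hCF, hmax⟩ := exists_max_image F card hFne
      rw [hF, mem_filter, mem_powerset] at hCF
      obtain ⟨hCS, hconn, hCne, b₀, hb₀S, hb₀C, hb₀⟩ := hCF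
      set B : Finset V := S.filter fun b => b ∉ C ∧ ∀ c ∈ C, ¬ N b c with hB
      have hb₀B : b₀ ∈ B := by
        rw [hB, mem_filter]
        exact ⟨hb₀S, hb₀C, hb₀⟩
      have hBS : B ⊆ S := filter_subset _ _
      have hBlt : B.card < n := by
        rw [← hSn]
        apply card_lt_card
        refine ⟨hBS, ?_⟩
        intro h
        obtain ⟨c, hc⟩ := hCne
        have h1 := h (hCS hc)
        rw [hB, mem_filter] at h1
        exact h1.2.1 hc
      obtain ⟨x, hxB, hx⟩ := ih B.card hBlt B rfl ⟨b₀, hb₀B⟩ (by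
        intro k g hg
        exact hno k g ⟨hg.four, fun i => hBS (hg.mem i), hg.per, hg.adj, hg.non⟩)
      have hxB' := hxB
      rw [hB, mem_filter] at hxB'
      obtain ⟨hxS, hxC, hxn⟩ := hxB'
      -- a vertex outside `C` and `B` is adjacent to `C` and to all of `B`
      have hsep : ∀ s ∈ S, s ∉ C → s ∉ B → (∃ c ∈ C, N s c) ∧ ∀ b ∈ B, N b s := by
        intro s hs hsC hsB
        have h1 : ∃ c ∈ C, N s c := by
          by_contra hcon
          push Not at hcon
          exact hsB (by
            rw [hB, mem_filter]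
            exact ⟨hs, hsC, hcon⟩)
        refine ⟨h1, ?_⟩
        intro b hb
        by_contra hbs
        obtain ⟨c, hc, hsc⟩ := h1
        rw [hB, mem_filter] at hb
        have hbs' : b ≠ s := by
          rintro rfl
          exact hb.2.2 c hc hsc
        have h2 : insert s C ∈ F := by
          rw [hF, mem_filter, mem_powerset]
          refine ⟨insert_subset hs hCS, hconn.insert hsym hc hsc, insert_nonempty s C, b, hb.1,
            ?_, ?_⟩
          · rw [mem_insert]
            rintro (h | h)
            · exact hbs' h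
            · exact hb.2.1 h
          · intro c' hc'
            rw [mem_insert] at hc'
            rcases hc' with rfl | hc'
            · exact hbs
            · exact hb.2.2 c' hc'
        have h3 := hmax _ h2
        rw [card_insert_of_notMem hsC] at h3
        omega
      refine ⟨x, hxS, ?_⟩
      intro y hy z hz hxy hxz hyz hNy hNz
      have hyC : y ∉ C := fun h => hxn y h hNy
      have hzC : z ∉ C := fun h => hxn z h hNz
      by_cases hyB : y ∈ B
      · by_cases hzB : z ∈ B
        · exact hx y hyB z hzB hxy hxz hyz hNy hNz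
        · exact (hsep z hz hzC hzB).2 y hyB
      · by_cases hzB : z ∈ B
        · exact hsym _ _ ((hsep y hy hyC hyB).2 z hzB)
        · by_contra hN
          obtain ⟨c, hc, hyc⟩ := (hsep y hy hyC hyB).1
          obtain ⟨c', hc', hzc⟩ := (hsep z hz hzC hzB).1
          obtain ⟨m, f, hf⟩ := hconn c hc c' hc'
          have h1 := ((((hf.reverse hsym).cons hc' hzc).reverse hsym).cons hc hyc)
          obtain ⟨m', f', hm', hf', hno'⟩ := Chain.chordless hyz hN hzC ⟨_, _, h1⟩
          obtain ⟨k, g, hg⟩ := hole_of_chain hsym hm' hf' hno' (fun c hc =>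
            ⟨fun h => hxC (by rw [h]; exact hc), hxn c hc⟩) hNy hNz hCS hy hz hxS
          exact hno k g hg

/-- **Perfect elimination order.** -/
theorem exists_peo (hsym : ∀ x y, N x y → N y x) :
    ∀ (n : ℕ) (S : Finset V), S.card = n → (∀ k g, ¬ Hole N S k g) →
      ∃ σ : V → ℕ, (∀ x ∈ S, ∀ y ∈ S, σ x = σ y → x = y) ∧
        ∀ x ∈ S, ∀ y ∈ S, ∀ z ∈ S, σ x < σ y → σ x < σ z → y ≠ z → N x y → N x z → N y z := by
  intro n
  induction n with
  | zero =>
    intro S hS _
    rw [card_eq_zero] at hS
    subst hS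
    exact ⟨fun _ => 0, fun x hx => by simp at hx, fun x hx => by simp at hx⟩
  | succ n ih =>
    intro S hS hno
    obtain ⟨x, hx, hsimp⟩ := exists_simplicial hsym (n + 1) S hS (card_pos.1 (by omega)) hno
    obtain ⟨σ, h1, h2⟩ := ih (S.erase x) (by rw [card_erase_of_mem hx, hS]; rfl) (by
      intro k g hg
      exact hno k g ⟨hg.four, fun i => mem_of_mem_erase (hg.mem i), hg.per, hg.adj, hg.non⟩)
    refine ⟨fun v => if v = x then 0 else σ v + 1, ?_, ?_⟩
    · intro y hy z hz h
      simp only at h
      by_cases hyx : y = x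
      · by_cases hzx : z = x
        · rw [hyx, hzx]
        · rw [if_pos hyx, if_neg hzx] at h
          omega
      · by_cases hzx : z = x
        · rw [if_neg hyx, if_pos hzx] at h
          omega
        · rw [if_neg hyx, if_neg hzx] at h
          exact h1 y (mem_erase.2 ⟨hyx, hy⟩) z (mem_erase.2 ⟨hzx, hz⟩) (by omega)
    · intro u hu y hy z hz huy huz hyz hNy hNz
      simp only at huy huz
      by_cases hyx : y = x
      · rw [if_pos hyx] at huy
        omega
      · by_cases hzx : z = x
        · rw [if_pos hzx] at huz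
          omega
        · by_cases hux : u = x
          · subst hux
            exact hsimp y hy z hz (Ne.symm hyx) (Ne.symm hzx) hyz hNy hNz
          · rw [if_neg hux, if_neg hyx] at huy
            rw [if_neg hux, if_neg hzx] at huz
            exact h2 u (mem_erase.2 ⟨hux, hu⟩) y (mem_erase.2 ⟨hyx, hy⟩) z
              (mem_erase.2 ⟨hzx, hz⟩) (by omega) (by omega) hyz hNy hNz

end Pool.Agent.Helper59.Tur
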