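import Pool.Agent.Helper59.Tur.Dirac

/-!
# Mixed graphs: the unoriented colour classes are chordal

In a mixed graph every pair of vertices is either an arc or an unoriented edge with a colour. If
every four vertices contain a vertex with two out-neighbours or a triangle of unoriented edges of
one colour then the graph of the unoriented edges of a colour has no hole.
-/

set_option autoImplicit false
open Finset

namespace Pool.Agent.Helper59.Tur

set_option linter.unusedSectionVars false

variable {V : Type} [DecidableEq V]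

/-- unoriented edges of colour `j` -/
def E (R : V → V → Prop) (ecol : V → V → ℕ) (j : ℕ) (x y : V) : Prop :=
  x ≠ y ∧ ¬ R x y ∧ ¬ R y x ∧ ecol x y = j

/-- a vertex with two out-neighbours or an unoriented triangle of one colour -/
def T3 (R : V → V → Prop) (ecol : V → V → ℕ) (a b c : V) : Prop :=
  (R a b ∧ R a c) ∨ (R b a ∧ R b c) ∨ (R c a ∧ R c b) ∨
    ∃ j, E R ecol j a b ∧ E R ecol j a c ∧ E R ecol j b c

/-- every four vertices of `S` contain one of these triples -/
def Cov (R : V → V → Prop) (ecol : V → V → ℕ) (S : Finset V) : Prop :=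
  ∀ a ∈ S, ∀ b ∈ S, ∀ c ∈ S, ∀ d ∈ S, a ≠ b → a ≠ c → a ≠ d → b ≠ c → b ≠ d → c ≠ d →
    T3 R ecol a b c ∨ T3 R ecol a b d ∨ T3 R ecol a c d ∨ T3 R ecol b c d

variable {R : V → V → Prop} {ecol : V → V → ℕ} {S : Finset V}

theorem E.symm (he : ∀ x y, ecol x y = ecol y x) {j : ℕ} {x y : V} (h : E R ecol j x y) :
    E R ecol j y x :=
  ⟨h.1.symm, h.2.2.1, h.2.1, (he y x).trans h.2.2.2⟩

/-- four consecutive vertices of a hole of length at least five -/
theorem four_consecutive (hcov : Cov R ecol S)
    {j : ℕ} {a b c d : V} (ha : a ∈ S) (hb : b ∈ S) (hc : c ∈ S) (hd : d ∈ S)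
    (hac : a ≠ c) (had : a ≠ d) (hbd : b ≠ d) (h1 : E R ecol j a b) (h2 : E R ecol j b c)
    (h3 : E R ecol j c d) (n1 : ¬ E R ecol j a c) (n2 : ¬ E R ecol j a d)
    (n3 : ¬ E R ecol j b d) : (R a c ∧ R a d) ∨ (R d a ∧ R d b) := by
  have e1 := h1.2.2.2
  have e2 := h2.2.2.2
  have e3 := h3.2.2.2
  rcases hcov a ha b hb c hc d hd h1.1 hac had h2.1 hbd h3.1 with h | h | h | h
  · rcases h with h | h | h | ⟨i, k1, k2, k3⟩
    · exact absurd h.1 h1.2.1
    · exact absurd h.1 h1.2.2.1
    · exact absurd h.2 h2.2.2.1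
    · have : i = j := k1.2.2.2.symm.trans e1
      subst this
      exact absurd k2 n1
  · rcases h with h | h | h | ⟨i, k1, k2, k3⟩
    · exact absurd h.1 h1.2.1
    · exact absurd h.1 h1.2.2.1
    · exact Or.inr h
    · have : i = j := k1.2.2.2.symm.trans e1
      subst this
      exact absurd k2 n2
  · rcases h with h | h | h | ⟨i, k1, k2, k3⟩
    · exact Or.inl h
    · exact absurd h.2 h3.2.1
    · exact absurd h.2 h3.2.2.1
    · have : i = j := k3.2.2.2.symm.trans e3
      subst this
      exact absurd k1 n1
  · rcases h with h | h | h | ⟨i, k1, k2, k3⟩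
    · exact absurd h.1 h2.2.1
    · exact absurd h.1 h2.2.2.1
    · exact absurd h.2 h3.2.2.1
    · have : i = j := k1.2.2.2.symm.trans e2
      subst this
      exact absurd k2 n3

/-- three consecutive vertices of a hole and a vertex further on -/
theorem three_and_one (hR : ∀ x y, R x y → ¬ R y x) (hcov : Cov R ecol S)
    {j : ℕ} {a b c d : V} (ha : a ∈ S) (hb : b ∈ S) (hc : c ∈ S) (hd : d ∈ S)
    (hac : a ≠ c) (had : a ≠ d) (hbd : b ≠ d) (hcd : c ≠ d) (h1 : E R ecol j a b)
    (h2 : E R ecol j b c) (h3 : R a c) (h4 : R b d) (h5 : R c d) : R a d := by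
  rcases hcov a ha b hb c hc d hd h1.1 hac had h2.1 hbd hcd with h | h | h | h
  · rcases h with h | h | h | ⟨i, k1, k2, k3⟩
    · exact absurd h.1 h1.2.1
    · exact absurd h.1 h1.2.2.1
    · exact absurd h.2 h2.2.2.1
    · exact absurd h3 k2.2.1
  · rcases h with h | h | h | ⟨i, k1, k2, k3⟩
    · exact absurd h.1 h1.2.1
    · exact absurd h.1 h1.2.2.1
    · exact absurd h.2 (hR _ _ h4)
    · exact absurd h4 k3.2.1
  · rcases h with h | h | h | ⟨i, k1, k2, k3⟩
    · exact h.2
    · exact absurd h.1 (hR _ _ h3)
    · exact absurd h.2 (hR _ _ h5)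
    · exact absurd h3 k1.2.1
  · rcases h with h | h | h | ⟨i, k1, k2, k3⟩
    · exact absurd h.1 h2.2.1
    · exact absurd h.1 h2.2.2.1
    · exact absurd h.1 (hR _ _ h4)
    · exact absurd h4 k2.2.1

/-- no hole with all short arcs forward -/
theorem forward_absurd (hR : ∀ x y, R x y → ¬ R y x)
    (hcov : Cov R ecol S) {j : ℕ} {k : ℤ} {g : ℤ → V} (hg : Hole (E R ecol j) S k g)
    (hk : 5 ≤ k) (hF : ∀ i, R (g i) (g (i + 2)) ∧ R (g i) (g (i + 3))) : False := by
  have hne : ∀ i d, 2 ≤ d → d ≤ k - 2 → g i ≠ g (i + d) := fun i d h1 h2 => (hg.non i d h1 h2).1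
  have A : ∀ n : ℕ, (n : ℤ) + 3 ≤ k - 2 → ∀ i, R (g i) (g (i + (n + 2))) ∧
      R (g i) (g (i + (n + 3))) := by
    intro n
    induction n with
    | zero =>
      intro _ i
      simpa using hF i
    | succ n ih =>
      intro hn i
      push_cast at hn
      have ih' := ih (by omega)
      have h1 : R (g i) (g (i + (n + 3))) := (ih' i).2
      refine ⟨?_, ?_⟩
      · have e : i + ((n + 1 : ℕ) + 2 : ℤ) = i + (n + 3) := by
          push_cast
          ring
        rw [e]
        exact h1
      · have e : i + ((n + 1 : ℕ) + 3 : ℤ) = i + (n + 4) := by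
          push_cast
          ring
        rw [e]
        have q1 : i + 1 + (n + 3 : ℤ) = i + (n + 4) := by ring
        have q2 : i + 2 + (n + 2 : ℤ) = i + (n + 4) := by ring
        have q3 : i + 1 + 1 = i + 2 := by ring
        have h2 := (ih' (i + 1)).2
        rw [q1] at h2
        have h3 := (ih' (i + 2)).1
        rw [q2] at h3
        have h4 := hg.adj (i + 1)
        rw [q3] at h4
        have h5 := hne (i + 1) (n + 3) (by omega) (by omega)
        rw [q1] at h5
        have h6 := hne (i + 2) (n + 2) (by omega) (by omega)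
        rw [q2] at h6
        exact three_and_one hR hcov (hg.mem i) (hg.mem (i + 1)) (hg.mem (i + 2)) (hg.mem _)
          (hne i 2 (by omega) (by omega)) (hne i (n + 4) (by omega) (by omega)) h5 h6 (hg.adj i)
          h4 (hF i).1 h2 h3
  obtain ⟨n, hn⟩ : ∃ n : ℕ, (n : ℤ) = k - 5 := ⟨(k - 5).toNat, by omega⟩
  have h1 := (A n (by omega) 2).2
  have e1 : (2 : ℤ) + ((n : ℤ) + 3) = 0 + k := by omega
  rw [e1, hg.per] at h1
  have h2 := (hF 0).1
  rw [zero_add] at h2
  exact hR _ _ h1 h2

/-- **No holes.** -/
theorem no_hole (hR : ∀ x y, R x y → ¬ R y x) (he : ∀ x y, ecol x y = ecol y x)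
    (hcov : Cov R ecol S) (j : ℕ) (k : ℤ) (g : ℤ → V) : ¬ Hole (E R ecol j) S k g := by
  intro hg
  rcases eq_or_lt_of_le hg.four with h4 | h4
  · -- length four
    subst h4
    have a0 := hg.adj 0
    have a1 := hg.adj 1
    have a2 := hg.adj 2
    have a3 := hg.adj 3
    have n0 := hg.non 0 2 le_rfl (by norm_num)
    have n1 := hg.non 1 2 le_rfl (by norm_num)
    have p := hg.per 0
    norm_num at a0 a1 a2 a3 n0 n1 p
    rw [p] at a3
    have s3 := a3.symm he
    rcases hcov _ (hg.mem 0) _ (hg.mem 1) _ (hg.mem 2) _ (hg.mem 3) a0.1 n0.1 s3.1 a1.1 n1.1 a2.1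
      with h | h | h | h
    · rcases h with h | h | h | ⟨i, k1, k2, k3⟩
      · exact a0.2.1 h.1
      · exact a0.2.2.1 h.1
      · exact a1.2.2.1 h.2
      · have : i = j := k1.2.2.2.symm.trans a0.2.2.2
        subst this
        exact n0.2 k2
    · rcases h with h | h | h | ⟨i, k1, k2, k3⟩
      · exact a0.2.1 h.1
      · exact a0.2.2.1 h.1
      · exact a3.2.1 h.1
      · have : i = j := k1.2.2.2.symm.trans a0.2.2.2
        subst this
        exact n1.2 k3
    · rcases h with h | h | h | ⟨i, k1, k2, k3⟩
      · exact s3.2.1 h.2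
      · exact a2.2.1 h.2
      · exact a3.2.1 h.1
      · have : i = j := k3.2.2.2.symm.trans a2.2.2.2
        subst this
        exact n0.2 k1
    · rcases h with h | h | h | ⟨i, k1, k2, k3⟩
      · exact a1.2.1 h.1
      · exact a1.2.2.1 h.1
      · exact a2.2.2.1 h.2
      · have : i = j := k1.2.2.2.symm.trans a1.2.2.2
        subst this
        exact n1.2 k2
  · -- length at least five
    have hFB : ∀ i, (R (g i) (g (i + 2)) ∧ R (g i) (g (i + 3))) ∨
        (R (g (i + 3)) (g i) ∧ R (g (i + 3)) (g (i + 1))) := by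
      intro i
      have a1 := hg.adj (i + 1)
      have a2 := hg.adj (i + 2)
      have n1 := hg.non i 2 le_rfl (by omega)
      have n2 := hg.non i 3 (by norm_num) (by omega)
      have n3 := hg.non (i + 1) 2 le_rfl (by omega)
      have e1 : i + 1 + 1 = i + 2 := by ring
      have e2 : i + 2 + 1 = i + 3 := by ring
      have e3 : i + 1 + 2 = i + 3 := by ring
      rw [e1] at a1
      rw [e2] at a2
      rw [e3] at n3
      exact four_consecutive hcov (hg.mem i) (hg.mem (i + 1)) (hg.mem (i + 2))
        (hg.mem (i + 3)) n1.1 n2.1 n3.1 (hg.adj i) a1 a2 n1.2 n2.2 n3.2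
    have hback : ∀ i, R (g (i + 1)) (g (i + 1 + 2)) → R (g i) (g (i + 2)) ∧
        R (g i) (g (i + 3)) := by
      intro i h
      have e3 : i + 1 + 2 = i + 3 := by ring
      rw [e3] at h
      rcases hFB i with h' | h'
      · exact h'
      · exact absurd h'.2 (hR _ _ h)
    by_cases hex : ∃ i, R (g i) (g (i + 2))
    · obtain ⟨i₀, hi₀⟩ := hex
      have hdown : ∀ n : ℕ, R (g (i₀ - n)) (g (i₀ - n + 2)) := by
        intro n
        induction n with
        | zero => simpa using hi₀
        | succ n ih =>
          have e1 : i₀ - (n + 1 : ℕ) + 1 = i₀ - n := by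
            push_cast
            ring
          have := hback (i₀ - (n + 1 : ℕ))
          rw [e1] at this
          exact (this ih).1
      have hper : ∀ (n : ℕ) (i : ℤ), g (i - n * k) = g i := by
        intro n
        induction n with
        | zero =>
          intro i
          simp
        | succ n ih =>
          intro i
          have h1 := ih (i - k)
          have h2 := hg.per (i - k)
          have e1 : i - ((n + 1 : ℕ) : ℤ) * k = i - k - n * k := by
            push_cast
            ring
          rw [e1, h1]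
          rw [sub_add_cancel] at h2
          exact h2.symm
      have hall : ∀ i, R (g i) (g (i + 2)) := by
        intro i
        -- go down from `i₀` to `i - n k`
        obtain ⟨n, hn⟩ : ∃ n : ℕ, i - n * k ≤ i₀ := by
          refine ⟨(i - i₀).toNat, ?_⟩
          have h1 : i - i₀ ≤ ((i - i₀).toNat : ℤ) := Int.self_le_toNat _
          have h2 : ((i - i₀).toNat : ℤ) ≤ ((i - i₀).toNat : ℤ) * k := by
            nlinarith [Int.natCast_nonneg (i - i₀).toNat]
          omega
        obtain ⟨l, hl⟩ : ∃ l : ℕ, i₀ - (l : ℤ) = i - n * k := ⟨(i₀ - (i - n * k)).toNat, by omega⟩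
        have h1 := hdown l
        rw [hl] at h1
        have e1 : i - (n : ℤ) * k + 2 = i + 2 - n * k := by ring
        rw [e1, hper, hper] at h1
        exact h1
      exact forward_absurd hR hcov hg (by omega) fun i => hback i (hall (i + 1))
    · push Not at hex
      have hB : ∀ i, R (g (i + 3)) (g i) ∧ R (g (i + 3)) (g (i + 1)) := by
        intro i
        rcases hFB i with h | h
        · exact absurd h.1 (hex i)
        · exact h
      -- the mirror image
      have hg' : Hole (E R ecol j) S k (fun i => g (-i)) := by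
        refine ⟨hg.four, fun i => hg.mem _, ?_, ?_, ?_⟩
        · intro i
          have h := hg.per (-(i + k))
          have e1 : -(i + k) + k = -i := by ring
          rw [e1] at h
          exact h.symm
        · intro i
          have h := hg.adj (-(i + 1))
          have e1 : -(i + 1) + 1 = -i := by ring
          rw [e1] at h
          exact h.symm he
        · intro i d h1 h2
          have h := hg.non (-(i + d)) d h1 h2
          have e1 : -(i + d) + d = -i := by ring
          rw [e1] at h
          exact ⟨h.1.symm, fun h' => h.2 (h'.symm he)⟩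
      refine forward_absurd hR hcov hg' (by omega) ?_
      intro i
      have h := hB (-(i + 3))
      have e1 : -(i + 3) + 3 = -i := by ring
      have e2 : -(i + 3) + 1 = -(i + 2) := by ring
      rw [e1, e2] at h
      exact ⟨h.2, h.1⟩

end Pool.Agent.Helper59.Tur
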